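import Pool.Agent.helper62.VQ.SpecE

/-!
# MP_07c750_an, project VQ, row vqe:UVG
-/

set_option autoImplicit false

open scoped MatrixGroups ContDiff Topology UpperHalfPlane
open UpperHalfPlane MeasureTheory Filter Set

namespace Pool.Agent.VQE

open Pool.Agent.RS

theorem UVG_mb {x y X Y : ℝ} (hx : |x| ≤ X) (hy : |y| ≤ Y) : |x * y| ≤ X * Y := by
  rw [abs_mul]
  exact mul_le_mul hx hy (abs_nonneg y) ((abs_nonneg x).trans hx)

theorem UVG_tri {x y X Y : ℝ} (hx : |x| ≤ X) (hy : |y| ≤ Y) : |x + y| ≤ X + Y :=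
  (abs_add_le x y).trans (add_le_add hx hy)

/-- the estimate, for one of the two components -/
theorem UVG_alg {t m s a b e p1 p2 q1 q2 P1 P2 Q1 Q2 σ τ : ℝ} (ht : 0 ≤ t) (hm0 : 0 ≤ m)
    (hms : m ≤ s) (hs : s ≤ 1 / 4) (hb : |b| ≤ s) (he : |e| ≤ s) (ha0 : 99 / 100 ≤ a)
    (ha1 : a ≤ 101 / 100) (hP2 : |P2 - 1| ≤ 1 / 100) (hQ2 : |Q2| ≤ 1 / 100)
    (h1 : |P1 - p1| ≤ t) (h2 : |P2 - P1 - p2 + p1| ≤ t * m) (h3 : |Q1 - q1| ≤ t)
    (h4 : |Q2 - Q1 - q2 + q1| ≤ t * m) (hσ : |σ - 1| ≤ s / 10)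
    (hD0 : σ * (a * p2 + e * q2) = a * p1 - e * q1) (hD1 : τ * (a * P2 + e * Q2) = a * P1 - e * Q1) :
    |((P2 * τ + P1) / 2 - 1) * b + a * (Q2 * τ - Q1) - (((p2 * σ + p1) / 2 - 1) * b + a * (q2 * σ - q1))|
      ≤ 100 * (t * s) := by
  have hs0 : 0 ≤ s := hm0.trans hms
  have hts : 0 ≤ t * s := mul_nonneg ht hs0
  have htm : t * m ≤ t * s := mul_le_mul_of_nonneg_left hms ht
  have hts4 : t * s ≤ t / 4 := by nlinarith
  have ha : |a| ≤ 101 / 100 := by rw [abs_le]; constructor <;> linarith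
  have e1 : |P2 - p2| ≤ 2 * t := by
    have h : P2 - p2 = (P2 - P1 - p2 + p1) + (P1 - p1) := by ring
    rw [h]
    exact (UVG_tri h2 h1).trans (by linarith)
  have e2 : |Q2 - q2| ≤ 2 * t := by
    have h : Q2 - q2 = (Q2 - Q1 - q2 + q1) + (Q1 - q1) := by ring
    rw [h]
    exact (UVG_tri h4 h3).trans (by linarith)
  have hD : 9 / 10 ≤ a * P2 + e * Q2 := by
    have h5 : |e * Q2| ≤ s * (1 / 100) := UVG_mb he hQ2
    rw [abs_le] at hP2 h5
    nlinarith
  have dD : |(a * P2 + e * Q2) - (a * p2 + e * q2)| ≤ 3 * t := by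
    have h : (a * P2 + e * Q2) - (a * p2 + e * q2) = a * (P2 - p2) + e * (Q2 - q2) := by ring
    rw [h]
    refine (UVG_tri (UVG_mb ha e1) (UVG_mb he e2)).trans ?_
    nlinarith
  have dU : |(-a) * (P2 - P1 - p2 + p1) + (-e) * ((Q1 - q1) + (Q2 - q2))| ≤ 5 * (t * s) := by
    have ha' : |-a| ≤ 101 / 100 := by rw [abs_neg]; exact ha
    have he' : |-e| ≤ s := by rw [abs_neg]; exact he
    refine (UVG_tri (UVG_mb ha' h2) (UVG_mb he' (UVG_tri h3 e2))).trans ?_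
    nlinarith
  have dS' : |(τ - σ) * (a * P2 + e * Q2)| ≤ 53 / 10 * (t * s) := by
    have h : (τ - σ) * (a * P2 + e * Q2) =
        ((-a) * (P2 - P1 - p2 + p1) + (-e) * ((Q1 - q1) + (Q2 - q2))) +
          (-(σ - 1)) * ((a * P2 + e * Q2) - (a * p2 + e * q2)) := by
      linear_combination hD1 - hD0
    rw [h]
    have hσ' : |-(σ - 1)| ≤ s / 10 := by rw [abs_neg]; exact hσ
    refine (UVG_tri dU (UVG_mb hσ' dD)).trans ?_
    nlinarith
  have dS : |τ - σ| ≤ 6 * (t * s) := by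
    rw [abs_mul, abs_of_pos (by linarith : 0 < a * P2 + e * Q2)] at dS'
    have h5 : |τ - σ| * (9 / 10) ≤ |τ - σ| * (a * P2 + e * Q2) :=
      mul_le_mul_of_nonneg_left hD (abs_nonneg _)
    linarith
  have sσ : |σ| ≤ 11 / 10 := by
    have h : σ = (σ - 1) + 1 := by ring
    rw [h]
    exact (UVG_tri hσ (le_of_eq abs_one)).trans (by linarith)
  have hP2' : |P2| ≤ 101 / 100 := by
    have h : P2 = (P2 - 1) + 1 := by ring
    rw [h]
    exact (UVG_tri hP2 (le_of_eq abs_one)).trans (by norm_num)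
  have dA : |(P2 * (τ - σ) + (P2 - p2) * σ + (P1 - p1)) / 2| ≤ 3 * t := by
    rw [abs_div, abs_of_pos (by norm_num : (0 : ℝ) < 2), div_le_iff₀ (by norm_num)]
    refine (UVG_tri (UVG_tri (UVG_mb hP2' dS) (UVG_mb e1 sσ)) h1).trans ?_
    nlinarith
  have dB : |(Q2 - Q1 - q2 + q1) + Q2 * (τ - σ) + (Q2 - q2) * (σ - 1)| ≤ 2 * (t * s) := by
    refine (UVG_tri (UVG_tri h4 (UVG_mb hQ2 dS)) (UVG_mb e2 hσ)).trans ?_
    nlinarith
  have h : ((P2 * τ + P1) / 2 - 1) * b + a * (Q2 * τ - Q1) -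
      (((p2 * σ + p1) / 2 - 1) * b + a * (q2 * σ - q1)) =
      (P2 * (τ - σ) + (P2 - p2) * σ + (P1 - p1)) / 2 * b +
        a * ((Q2 - Q1 - q2 + q1) + Q2 * (τ - σ) + (Q2 - q2) * (σ - 1)) := by ring
  rw [h]
  refine (UVG_tri (UVG_mb dA hb) (UVG_mb ha dB)).trans ?_
  nlinarith

theorem UVG_proof (h1 : NMB_stmt) (h2 : UVX_stmt) : UVG_stmt := by
  intro δ p q hδ0 hδ1 hF b c g E hb hc
  obtain ⟨n0, -, -, -, -, -, -, ndg, -⟩ := h1
  obtain ⟨-, -, hX⟩ := h2 δ p q hδ0 hδ1 hF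
  obtain ⟨xu, xv, xs, x0, -, -, -⟩ := hX b c 0 0 hb hc (by simp) (by simp)
  obtain ⟨s, hs⟩ : ∃ s : ℝ, s = |b| + |c| := ⟨_, rfl⟩
  have hs0 : 0 ≤ s := by rw [hs]; positivity
  have hs4 : s ≤ 1 / 4 := by rw [hs]; linarith
  have hn := n0 E
  rcases le_total 1 (nm E) with hE | hE
  · rw [min_eq_left hE]
    have key : ∀ (h : (SL(2, ℝ) → ℝ) → (SL(2, ℝ) → ℝ) → SL(2, ℝ) → ℝ → ℝ → ℝ),
        (∀ g, |h p q g b c - h p q g 0 0| ≤ 50 * δ * (|b - 0| + |c - 0|)) → (∀ g, h p q g 0 0 = 0) →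
        |h p q (g * E) b c - h p q g b c| ≤ 100 * δ * 1 * (|b| + |c|) := by
      intro h hh hz
      have a1 := hh (g * E)
      have a2 := hh g
      rw [hz, sub_zero, sub_zero, sub_zero] at a1 a2
      have a3 : |h p q (g * E) b c - h p q g b c| ≤ |h p q (g * E) b c| + |h p q g b c| :=
        abs_sub _ _
      linarith
    exact ⟨key hu xu fun g => (x0 g).1, key hv xv fun g => (x0 g).2⟩
  · rw [min_eq_right hE]
    obtain ⟨D, hD⟩ : ∃ D : SL(2, ℝ), D = dg b c := ⟨_, rfl⟩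
    have hnD : nm D ≤ max |b| |c| := by rw [hD]; exact ndg b c hb hc
    have hnD0 : 0 ≤ nm D := n0 D
    have hmx : max |b| |c| ≤ s := by
      rw [hs]
      exact max_le (le_add_of_nonneg_right (abs_nonneg c)) (le_add_of_nonneg_left (abs_nonneg b))
    have hnD4 : nm D ≤ 1 / 4 := hnD.trans (hmx.trans hs4)
    have hbc : |b * c| ≤ 1 / 8 * (1 / 8) := UVG_mb hb hc
    rw [abs_le] at hbc
    have ha0 : 99 / 100 ≤ √(1 + b * c) := by
      apply Real.le_sqrt_of_sq_le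
      norm_num
      linarith [hbc.1]
    have ha1 : √(1 + b * c) ≤ 101 / 100 := by
      rw [Real.sqrt_le_left (by norm_num)]
      norm_num
      linarith [hbc.2]
    have hp2 : |p (g * E * D) - 1| ≤ 1 / 100 := (hF.p0 _).trans hδ1
    have hq2 : |q (g * E * D)| ≤ 1 / 100 := (hF.q0 _).trans hδ1
    have hden : ∀ g' : SL(2, ℝ), √(1 + b * c) * p (g' * D) + (b + c) * q (g' * D) ≠ 0 := by
      intro g'
      have a1 : |p (g' * D) - 1| ≤ 1 / 100 := (hF.p0 _).trans hδ1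
      have a2 : |q (g' * D)| ≤ 1 / 100 := (hF.q0 _).trans hδ1
      have a3 : |b + c| ≤ s := by rw [hs]; exact abs_add_le b c
      have a4 := UVG_mb a3 a2
      rw [abs_le] at a1 a4
      have : 0 < √(1 + b * c) * p (g' * D) + (b + c) * q (g' * D) := by nlinarith
      exact this.ne'
    have hσ : ∀ g' : SL(2, ℝ), sg p q g' b c * (√(1 + b * c) * p (g' * D) + (b + c) * q (g' * D)) =
        √(1 + b * c) * p g' - (b + c) * q g' := by
      intro g'
      unfold sg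
      rw [← hD]
      exact div_mul_cancel₀ _ (hden g')
    have hσ1 : |sg p q g b c - 1| ≤ s / 10 := by
      refine (xs g).trans ?_
      rw [← hs]
      nlinarith
    have main : ∀ x : ℝ, |x| ≤ s →
        |((p (g * E * D) * sg p q (g * E) b c + p (g * E)) / 2 - 1) * x + √(1 + b * c) *
            (q (g * E * D) * sg p q (g * E) b c - q (g * E)) -
          (((p (g * D) * sg p q g b c + p g) / 2 - 1) * x + √(1 + b * c) *
            (q (g * D) * sg p q g b c - q g))| ≤ 100 * ((δ * nm E) * s) := by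
      intro x hx
      refine UVG_alg (m := nm D) (e := b + c) (mul_nonneg hδ0 hn) hnD0 (hnD.trans hmx) hs4 hx
        (by rw [hs]; exact abs_add_le b c) ha0 ha1 hp2 hq2 (hF.p1 g E) ?_ (hF.q1 g E) ?_ hσ1 (hσ g)
        (hσ (g * E))
      · refine (hF.p2 g E D hnD4).trans (le_of_eq ?_)
        ring
      · refine (hF.q2 g E D hnD4).trans (le_of_eq ?_)
        ring
    have e1 : 100 * ((δ * nm E) * s) = 100 * δ * nm E * (|b| + |c|) := by rw [hs]; ring
    rw [e1] at main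
    constructor
    · have h := main b (by rw [hs]; linarith [abs_nonneg c])
      unfold hu
      rw [← hD]
      exact h
    · have h := main c (by rw [hs]; linarith [abs_nonneg b])
      unfold hv
      rw [← hD]
      exact h

end Pool.Agent.VQE
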